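import Mathlib
import Pool.Agent.J4H39.SC.Stm

set_option autoImplicit false

/-! Project SC of J4H39: the jobs NC, ONE, UP, LO (number of different positions of coalescing walks: negative
correlation of disjoint adjacent pairs, variance at most the mean, Chebyshev). -/

namespace Pool.Agent.J4H49.SC

open Finset Filter Real
open Pool.Agent.J4H39 Pool.Agent.J4H39.SC
open Pool.Agent.J4H26.AF (moves moves_pos)

variable {K : ℕ}

/-! ### averages over the moves -/

/-- the walkers of the cluster of `i` get the step `a` -/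
def setc (z : Fin K → ℤ) (i : Fin K) (a : Fin 2) (p : Fin K → Fin 2) : Fin K → Fin 2 := fun j => if z j = z i then a else p j

theorem setc_self (z : Fin K → ℤ) (i : Fin K) (a : Fin 2) (p : Fin K → Fin 2) : setc z i a p i = a := by
  unfold setc; rw [if_pos rfl]

theorem setc_of_ne {z : Fin K → ℤ} {i j : Fin K} (h : z j ≠ z i) (a : Fin 2) (p : Fin K → Fin 2) : setc z i a p j = p j := by
  unfold setc; rw [if_neg h]

theorem mem_mv {z : Fin K → ℤ} {p : Fin K → Fin 2} : p ∈ moves z ↔ ∀ i j, z i = z j → p i = p j := by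
  unfold moves; simp

theorem setc_mem {z : Fin K → ℤ} (i : Fin K) (a : Fin 2) {p : Fin K → Fin 2} (hp : p ∈ moves z) : setc z i a p ∈ moves z := by
  rw [mem_mv] at hp ⊢
  intro j l hjl
  unfold setc
  rw [hjl, hp j l hjl]

theorem setc_flip {z : Fin K → ℤ} (i : Fin K) {p : Fin K → Fin 2} (hp : p ∈ moves z) :
    setc z i (1 - (setc z i (1 - p i) p) i) (setc z i (1 - p i) p) = p := by
  rw [mem_mv] at hp
  funext j
  unfold setc
  by_cases h : z j = z i
  · simp only [h, if_true]
    rw [hp j i h]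
    generalize p i = q
    revert q; decide
  · simp only [h, if_false]

theorem avg_set (z : Fin K → ℤ) (i : Fin K) (f : (Fin K → Fin 2) → ℝ) :
    ∑ p ∈ moves z, f p = ∑ p ∈ moves z, (f (setc z i 0 p) + f (setc z i 1 p)) / 2 := by
  have h1 : ∑ p ∈ moves z, f p = ∑ p ∈ moves z, f (setc z i (1 - p i) p) := by
    apply sum_bij' (fun p _ => setc z i (1 - p i) p) (fun p _ => setc z i (1 - p i) p)
    · intro p hp; exact setc_mem i _ hp
    · intro p hp; exact setc_mem i _ hp
    · intro p hp; exact setc_flip i hp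
    · intro p hp; exact setc_flip i hp
    · intro p hp; rw [setc_flip i hp]
  have h2 : ∀ p ∈ moves z, (f (setc z i 0 p) + f (setc z i 1 p)) / 2 = (f p + f (setc z i (1 - p i) p)) / 2 := by
    intro p hp
    have h3 : setc z i (p i) p = p := by
      rw [mem_mv] at hp
      funext j
      unfold setc
      split_ifs with h
      · exact (hp j i h).symm
      · rfl
    have h4 : p i = 0 ∨ p i = 1 := by
      generalize p i = q
      revert q; decide
    rcases h4 with h4 | h4
    · rw [h4] at h3 ⊢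
      rw [h3]; rfl
    · rw [h4] at h3 ⊢
      rw [h3]
      simp only [sub_self]
      ring
  rw [sum_congr rfl h2, ← sum_div, sum_add_distrib, ← h1]
  ring

/-- two walkers at different positions -/
theorem avg2 (z : Fin K → ℤ) {i j : Fin K} (h : z i ≠ z j) (f : Fin 2 → Fin 2 → ℝ) :
    (∑ p ∈ moves z, f (p i) (p j)) / #(moves z) = (f 0 0 + f 0 1 + f 1 0 + f 1 1) / 4 := by
  have hc := card_moves z
  rw [div_eq_iff hc.ne', avg_set z i]
  simp only [setc_self, setc_of_ne h.symm]
  rw [avg_set z j]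
  simp only [setc_self]
  rw [sum_const, nsmul_eq_mul]
  ring

/-- two pairs of walkers, at four positions -/
theorem avg4 (z : Fin K → ℤ) {i j l m : Fin K} (hij : z i < z j) (hjl : z j < z l) (hlm : z l < z m) (f g : Fin 2 → Fin 2 → ℝ) :
    (∑ p ∈ moves z, f (p i) (p j) * g (p l) (p m)) / #(moves z) =
      (f 0 0 + f 0 1 + f 1 0 + f 1 1) / 4 * ((g 0 0 + g 0 1 + g 1 0 + g 1 1) / 4) := by
  have hc := card_moves z
  rw [div_eq_iff hc.ne', avg_set z i]
  simp only [setc_self, setc_of_ne hij.ne', setc_of_ne (hij.trans hjl).ne', setc_of_ne ((hij.trans hjl).trans hlm).ne']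
  rw [avg_set z j]
  simp only [setc_self, setc_of_ne hjl.ne', setc_of_ne (hjl.trans hlm).ne']
  rw [avg_set z l]
  simp only [setc_self, setc_of_ne hlm.ne']
  rw [avg_set z m]
  simp only [setc_self]
  rw [sum_const, nsmul_eq_mul]
  ring

/-- two pairs of walkers with a common position -/
theorem avg3 (z : Fin K → ℤ) {i j l m : Fin K} (hij : z i < z j) (hjl : z j = z l) (hlm : z l < z m) (f g : Fin 2 → Fin 2 → ℝ)
    (hf : f 0 0 + f 1 0 ≤ f 0 1 + f 1 1) (hg : g 1 0 + g 1 1 ≤ g 0 0 + g 0 1) :
    (∑ p ∈ moves z, f (p i) (p j) * g (p l) (p m)) / #(moves z) ≤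
      (f 0 0 + f 0 1 + f 1 0 + f 1 1) / 4 * ((g 0 0 + g 0 1 + g 1 0 + g 1 1) / 4) := by
  have hc := card_moves z
  have h1 : ∑ p ∈ moves z, f (p i) (p j) * g (p l) (p m) = ∑ p ∈ moves z, f (p i) (p j) * g (p j) (p m) := by
    apply sum_congr rfl
    intro p hp
    rw [mem_mv] at hp
    rw [hp j l hjl]
  have hjm : z j < z m := by rw [hjl]; exact hlm
  rw [div_le_iff₀ hc, h1, avg_set z i]
  simp only [setc_self, setc_of_ne hij.ne', setc_of_ne (hij.trans hjm).ne']
  rw [avg_set z j]
  simp only [setc_self, setc_of_ne hjm.ne']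
  rw [avg_set z m]
  simp only [setc_self]
  rw [sum_const, nsmul_eq_mul]
  have hp : 0 ≤ (f 0 1 + f 1 1 - (f 0 0 + f 1 0)) * (g 0 0 + g 0 1 - (g 1 0 + g 1 1)) :=
    mul_nonneg (by linarith) (by linarith)
  have : (((f 0 0 * g 0 0 + f 1 0 * g 0 0) / 2 + (f 0 1 * g 1 0 + f 1 1 * g 1 0) / 2) / 2 +
      ((f 0 0 * g 0 1 + f 1 0 * g 0 1) / 2 + (f 0 1 * g 1 1 + f 1 1 * g 1 1) / 2) / 2) / 2 ≤
      (f 0 0 + f 0 1 + f 1 0 + f 1 1) / 4 * ((g 0 0 + g 0 1 + g 1 0 + g 1 1) / 4) := by nlinarith
  nlinarith

/-! ### one pair -/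

theorem cw_pair_zero (n : ℕ) : ∀ (z : Fin K → ℤ) (G : (Fin K → ℤ) → ℝ) (i j : Fin K), (∀ y, y i = y j → G y = 0) → z i = z j →
    cw G n z = 0 := by
  induction n with
  | zero => intro z G i j hG hz; exact hG z hz
  | succ n ih =>
    intro z G i j hG hz
    simp only [cw]
    rw [sum_eq_zero, zero_div]
    intro p hp
    apply ih _ G i j hG
    rw [mem_mv] at hp
    simp only [hz, hp i j hz]

theorem id1_ne_self (a : ℤ) : id1 (a ≠ a) = 0 := by unfold id1; simp

theorem id1_true {P : Prop} (h : P) : id1 P = 1 := by unfold id1; rw [if_pos h]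

theorem id1_false {P : Prop} (h : ¬ P) : id1 P = 0 := by unfold id1; rw [if_neg h]

theorem t_ONE : S_ONE := by
  intro K n
  induction n with
  | zero =>
    intro z i j
    simp only [cw]
    by_cases h : z i = z j
    · rw [h, id1_ne_self, sub_self, mul_zero, mul_zero, U_zero]
    · rw [id1_true h, mul_zero, U_base (by omega)]
  | succ n ih =>
    intro z i j
    by_cases h : z i = z j
    · rw [cw_pair_zero (n + 1) z _ i j (fun y hy => by rw [hy, id1_ne_self]) h, h, sub_self, mul_zero, U_zero]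
    · simp only [cw]
      simp only [ih]
      have h2 := avg2 z h (fun a b => U (2 * n) (2 * (z j + ((b : ℕ) : ℤ) - (z i + ((a : ℕ) : ℤ)))))
      rw [h2, U_two (show z j - z i ≠ 0 by omega)]
      simp only [Fin.val_zero, Fin.val_one, Nat.cast_zero, Nat.cast_one, add_zero]
      have e1 : z j + 1 - z i = z j - z i + 1 := by ring
      have e2 : z j - (z i + 1) = z j - z i - 1 := by ring
      have e3 : z j + 1 - (z i + 1) = z j - z i := by ring
      rw [e1, e2, e3]

theorem U_mono_int (q : ℕ) {a b : ℤ} (h0 : 0 ≤ a) (h : a ≤ b) : U q a ≤ U q b := by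
  obtain ⟨c, rfl⟩ := Int.eq_ofNat_of_zero_le h0
  obtain ⟨d, rfl⟩ := Int.eq_ofNat_of_zero_le (h0.trans h)
  exact U_monotone q (by exact_mod_cast h)

theorem nc (n : ℕ) : ∀ (z : Fin K → ℤ) (i j l m : Fin K), z i ≤ z j → z j ≤ z l → z l ≤ z m →
    cw (fun y => id1 (y i ≠ y j) * id1 (y l ≠ y m)) n z ≤ U (2 * n) (2 * (z j - z i)) * U (2 * n) (2 * (z m - z l)) := by
  induction n with
  | zero =>
    intro z i j l m hij hjl hlm
    simp only [cw]
    by_cases h : z i = z j
    · rw [h, id1_ne_self, zero_mul]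
      exact mul_nonneg (U_nonneg _ _) (U_nonneg _ _)
    by_cases h' : z l = z m
    · rw [h', id1_ne_self, mul_zero]
      exact mul_nonneg (U_nonneg _ _) (U_nonneg _ _)
    rw [id1_true h, id1_true h', mul_zero, U_base (by omega), U_base (by omega)]
  | succ n ih =>
    intro z i j l m hij hjl hlm
    by_cases h : z i = z j
    · rw [cw_pair_zero (n + 1) z _ i j (fun y hy => by rw [hy, id1_ne_self, zero_mul]) h]
      exact mul_nonneg (U_nonneg _ _) (U_nonneg _ _)
    by_cases h' : z l = z m
    · rw [cw_pair_zero (n + 1) z _ l m (fun y hy => by rw [hy, id1_ne_self, mul_zero]) h']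
      exact mul_nonneg (U_nonneg _ _) (U_nonneg _ _)
    have hij' : z i < z j := lt_of_le_of_ne hij h
    have hlm' : z l < z m := lt_of_le_of_ne hlm h'
    have hc := card_moves z
    set f : Fin 2 → Fin 2 → ℝ := fun a b => U (2 * n) (2 * (z j + ((b : ℕ) : ℤ) - (z i + ((a : ℕ) : ℤ)))) with hf
    set g : Fin 2 → Fin 2 → ℝ := fun a b => U (2 * n) (2 * (z m + ((b : ℕ) : ℤ) - (z l + ((a : ℕ) : ℤ)))) with hg
    have h1 : cw (fun y => id1 (y i ≠ y j) * id1 (y l ≠ y m)) (n + 1) z ≤
        (∑ p ∈ moves z, f (p i) (p j) * g (p l) (p m)) / #(moves z) := by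
      simp only [cw]
      apply div_le_div_of_nonneg_right _ hc.le
      apply sum_le_sum
      intro p hp
      rw [mem_mv] at hp
      have st : ∀ a b : Fin K, z a ≤ z b → z a + (p a : ℕ) ≤ z b + (p b : ℕ) := by
        intro a b hab
        rcases eq_or_lt_of_le hab with h3 | h3
        · rw [h3, hp a b h3]
        · have := (p a).2
          have := (p b).2
          omega
      exact ih (fun i => z i + (p i : ℕ)) i j l m (st _ _ hij) (st _ _ hjl) (st _ _ hlm)
    have e1 : (f 0 0 + f 0 1 + f 1 0 + f 1 1) / 4 = U (2 * (n + 1)) (2 * (z j - z i)) := by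
      rw [U_two (show z j - z i ≠ 0 by omega), hf]
      simp only [Fin.val_zero, Fin.val_one, Nat.cast_zero, Nat.cast_one, add_zero]
      have e1 : z j + 1 - z i = z j - z i + 1 := by ring
      have e2 : z j - (z i + 1) = z j - z i - 1 := by ring
      have e3 : z j + 1 - (z i + 1) = z j - z i := by ring
      rw [e1, e2, e3]
    have e2 : (g 0 0 + g 0 1 + g 1 0 + g 1 1) / 4 = U (2 * (n + 1)) (2 * (z m - z l)) := by
      rw [U_two (show z m - z l ≠ 0 by omega), hg]
      simp only [Fin.val_zero, Fin.val_one, Nat.cast_zero, Nat.cast_one, add_zero]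
      have e1 : z m + 1 - z l = z m - z l + 1 := by ring
      have e2 : z m - (z l + 1) = z m - z l - 1 := by ring
      have e3 : z m + 1 - (z l + 1) = z m - z l := by ring
      rw [e1, e2, e3]
    rw [← e1, ← e2]
    refine h1.trans ?_
    rcases eq_or_lt_of_le hjl with h3 | h3
    · apply avg3 z hij' h3 hlm'
      · rw [hf]
        simp only [Fin.val_zero, Fin.val_one, Nat.cast_zero, Nat.cast_one, add_zero]
        apply add_le_add
        · exact U_mono_int _ (by omega) (by omega)
        · exact U_mono_int _ (by omega) (by omega)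
      · rw [hg]
        simp only [Fin.val_zero, Fin.val_one, Nat.cast_zero, Nat.cast_one, add_zero]
        apply add_le_add
        · exact U_mono_int _ (by omega) (by omega)
        · exact U_mono_int _ (by omega) (by omega)
    · exact (avg4 z hij' h3 hlm' f g).le

theorem t_NC : S_NC := fun _ n z i j l m h1 h2 h3 => nc n z i j l m h1.le h2 h3.le


/-! ### means of coalescing walks -/

theorem cw_lin (G H : (Fin K → ℤ) → ℝ) (a b : ℝ) (n : ℕ) : ∀ z : Fin K → ℤ,
    cw (fun y => a * G y + b * H y) n z = a * cw G n z + b * cw H n z := by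
  induction n with
  | zero => intro z; rfl
  | succ n ih =>
    intro z
    simp only [cw, ih]
    rw [sum_add_distrib, ← mul_sum, ← mul_sum]
    ring

theorem cw_const (c : ℝ) (n : ℕ) : ∀ z : Fin K → ℤ, cw (fun _ => c) n z = c := by
  induction n with
  | zero => intro z; rfl
  | succ n ih =>
    intro z
    have hc := card_moves z
    simp only [cw, ih]
    rw [sum_const, nsmul_eq_mul]
    field_simp

theorem cw_fsum {ι : Type*} (S : Finset ι) (f : ι → (Fin K → ℤ) → ℝ) (n : ℕ) :
    ∀ z, cw (fun z => ∑ i ∈ S, f i z) n z = ∑ i ∈ S, cw (f i) n z := by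
  induction n with
  | zero => intro z; rfl
  | succ n ih =>
    intro z
    simp only [cw, ih]
    rw [sum_comm, sum_div]

/-- the order of the walkers is kept -/
def Ord (z y : Fin K → ℤ) : Prop := ∀ i j, z i ≤ z j → y i ≤ y j

theorem Ord.eq {z y : Fin K → ℤ} (h : Ord z y) {i j : Fin K} (e : z i = z j) : y i = y j :=
  le_antisymm (h i j e.le) (h j i e.ge)

theorem ord_step {z : Fin K → ℤ} {p : Fin K → Fin 2} (hp : p ∈ moves z) : Ord z (fun i => z i + (p i : ℕ)) := by
  rw [mem_mv] at hp
  intro a b hab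
  show z a + (p a : ℕ) ≤ z b + (p b : ℕ)
  rcases eq_or_lt_of_le hab with h3 | h3
  · rw [h3, hp a b h3]
  · have := (p a).2
    have := (p b).2
    omega

theorem cw_mono_ord {F G : (Fin K → ℤ) → ℝ} (n : ℕ) : ∀ z : Fin K → ℤ, (∀ y, Ord z y → F y ≤ G y) → cw F n z ≤ cw G n z := by
  induction n with
  | zero => intro z h; exact h z (fun _ _ h => h)
  | succ n ih =>
    intro z h
    have hc := card_moves z
    simp only [cw]
    apply div_le_div_of_nonneg_right _ hc.le
    apply sum_le_sum
    intro p hp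
    apply ih
    intro y hy
    exact h y (fun a b hab => hy a b (ord_step hp a b hab))

/-- number of adjacent pairs of a chain which are apart -/
noncomputable def nap {J : ℕ} (c : Fin (J + 1) → Fin K) (y : Fin K → ℤ) : ℝ := ∑ j : Fin J, id1 (y (c j.castSucc) ≠ y (c j.succ))

theorem id1_sq (P : Prop) : id1 P * id1 P = id1 P := by
  by_cases h : P
  · rw [id1_true h, one_mul]
  · rw [id1_false h, zero_mul]

/-- variance -/
theorem var_nap {J : ℕ} (n : ℕ) (z : Fin K → ℤ) (c : Fin (J + 1) → Fin K) (hc : StrictMono (fun j => z (c j))) (E : ℝ)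
    (hE : E = ∑ j : Fin J, U (2 * n) (2 * (z (c j.succ) - z (c j.castSucc)))) :
    cw (fun y => (nap c y - E) ^ 2) n z ≤ E := by
  have h1 : cw (nap c) n z = E := by
    unfold nap
    rw [cw_fsum, hE]
    exact sum_congr rfl fun j _ => t_ONE K n z _ _
  have h2 : cw (fun y => nap c y * nap c y) n z ≤ E + E * E := by
    have e1 : (fun y : Fin K → ℤ => nap c y * nap c y) = fun y => ∑ j : Fin J, ∑ l : Fin J,
        (id1 (y (c j.castSucc) ≠ y (c j.succ)) * id1 (y (c l.castSucc) ≠ y (c l.succ))) := by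
      funext y
      unfold nap
      rw [sum_mul_sum]
    rw [e1, cw_fsum]
    have e2 : ∀ j : Fin J, cw (fun y => ∑ l : Fin J,
        (id1 (y (c j.castSucc) ≠ y (c j.succ)) * id1 (y (c l.castSucc) ≠ y (c l.succ)))) n z ≤
        U (2 * n) (2 * (z (c j.succ) - z (c j.castSucc))) + U (2 * n) (2 * (z (c j.succ) - z (c j.castSucc))) * E := by
      intro j
      rw [cw_fsum]
      have e3 : ∀ l : Fin J, cw (fun y => id1 (y (c j.castSucc) ≠ y (c j.succ)) * id1 (y (c l.castSucc) ≠ y (c l.succ))) n z ≤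
          (if l = j then U (2 * n) (2 * (z (c j.succ) - z (c j.castSucc))) else 0) +
          U (2 * n) (2 * (z (c j.succ) - z (c j.castSucc))) * U (2 * n) (2 * (z (c l.succ) - z (c l.castSucc))) := by
        intro l
        have hm : ∀ j : Fin J, z (c j.castSucc) < z (c j.succ) := fun j => hc (Fin.castSucc_lt_succ)
        rcases lt_trichotomy j l with h | h | h
        · rw [if_neg h.ne', zero_add]
          apply nc n z _ _ _ _ (hm j).le _ (hm l).le
          exact hc.monotone (by rw [Fin.le_def]; simp; exact h)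
        · subst h
          rw [if_pos rfl]
          have e4 : (fun y : Fin K → ℤ => id1 (y (c j.castSucc) ≠ y (c j.succ)) * id1 (y (c j.castSucc) ≠ y (c j.succ))) =
              fun y => id1 (y (c j.castSucc) ≠ y (c j.succ)) := by
            funext y; exact id1_sq _
          rw [e4, t_ONE]
          have := mul_nonneg (U_nonneg (2 * n) (2 * (z (c j.succ) - z (c j.castSucc)))) (U_nonneg (2 * n) (2 * (z (c j.succ) - z (c j.castSucc))))
          linarith
        · rw [if_neg h.ne, zero_add]
          have e4 : (fun y : Fin K → ℤ => id1 (y (c j.castSucc) ≠ y (c j.succ)) * id1 (y (c l.castSucc) ≠ y (c l.succ))) =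
              fun y => id1 (y (c l.castSucc) ≠ y (c l.succ)) * id1 (y (c j.castSucc) ≠ y (c j.succ)) := by
            funext y; exact mul_comm _ _
          rw [e4, mul_comm (U _ _)]
          apply nc n z _ _ _ _ (hm l).le _ (hm j).le
          exact hc.monotone (by rw [Fin.le_def]; simp; exact h)
      refine (sum_le_sum fun l _ => e3 l).trans (le_of_eq ?_)
      rw [sum_add_distrib, ← mul_sum, ← hE, sum_ite_eq' univ j]
      simp
    refine (sum_le_sum fun j _ => e2 j).trans (le_of_eq ?_)
    rw [sum_add_distrib, ← sum_mul, ← hE]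
  have h3 : cw (fun y => (nap c y - E) ^ 2) n z = cw (fun y => nap c y * nap c y) n z - 2 * E * cw (nap c) n z + E * E := by
    have e1 : (fun y : Fin K → ℤ => (nap c y - E) ^ 2) = fun y => 1 * (nap c y * nap c y) + (-1) * (2 * E * nap c y + (-1) * (E * E)) := by
      funext y; ring
    rw [e1, cw_lin, cw_lin, cw_const]
    ring
  rw [h3, h1]
  linarith

theorem cheb {J : ℕ} (n : ℕ) (z : Fin K → ℤ) (c : Fin (J + 1) → Fin K) (hc : StrictMono (fun j => z (c j))) (E r : ℝ) (hr : 0 < r)
    (hE : E = ∑ j : Fin J, U (2 * n) (2 * (z (c j.succ) - z (c j.castSucc)))) (P : (Fin K → ℤ) → Prop)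
    (hP : ∀ y, Ord z y → P y → r ≤ |nap c y - E|) : cw (fun y => id1 (P y)) n z ≤ E / r ^ 2 := by
  have h1 := var_nap n z c hc E hE
  have h2 : cw (fun y => id1 (P y)) n z ≤ cw (fun y => (1 / r ^ 2) * (nap c y - E) ^ 2 + 0 * 0) n z := by
    apply cw_mono_ord
    intro y hy
    by_cases h : P y
    · rw [id1_true h]
      have h3 := hP y hy h
      have h4 : r ^ 2 ≤ (nap c y - E) ^ 2 := by
        rw [← sq_abs (nap c y - E)]
        exact pow_le_pow_left₀ hr.le h3 2
      rw [mul_zero, add_zero, one_div, ← div_eq_inv_mul, le_div_iff₀ (by positivity)]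
      linarith
    · rw [id1_false h]
      positivity
  rw [cw_lin (fun y => (nap c y - E) ^ 2) (fun _ => 0), zero_mul, add_zero] at h2
  refine h2.trans ?_
  rw [one_div, ← div_eq_inv_mul]
  exact div_le_div_of_nonneg_right h1 (by positivity)

/-! ### number of positions of a chain -/

theorem ncl_chain_le : ∀ (m : ℕ) (g : Fin (m + 1) → ℤ), (ncl g : ℝ) ≤ 1 + ∑ j : Fin m, id1 (g j.castSucc ≠ g j.succ) := by
  intro m
  induction m with
  | zero =>
    intro g
    unfold ncl
    simp
  | succ m ih =>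
    intro g
    have h1 := ih (fun j => g j.castSucc)
    rw [Fin.sum_univ_castSucc]
    have h2 : univ.image g = insert (g (Fin.last (m + 1))) (univ.image (fun j : Fin (m + 1) => g j.castSucc)) := by
      ext x
      simp only [mem_image, mem_univ, true_and, mem_insert]
      constructor
      · rintro ⟨a, rfl⟩
        rcases Fin.eq_castSucc_or_eq_last a with ⟨b, rfl⟩ | rfl
        · exact Or.inr ⟨b, rfl⟩
        · exact Or.inl rfl
      · rintro (rfl | ⟨b, rfl⟩)
        · exact ⟨_, rfl⟩
        · exact ⟨_, rfl⟩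
    unfold ncl at h1 ⊢
    rw [h2]
    have e1 : (Fin.last m).succ = Fin.last (m + 1) := rfl
    rw [e1]
    by_cases h : g (Fin.last m).castSucc = g (Fin.last (m + 1))
    · rw [id1_false (by simpa using h), insert_eq_of_mem (by rw [← h]; exact mem_image_of_mem (fun j : Fin (m + 1) => g j.castSucc) (mem_univ _))]
      refine h1.trans (le_of_eq ?_)
      rw [add_zero]
      rfl
    · rw [id1_true (by simpa using h)]
      have h3 := card_insert_le (g (Fin.last (m + 1))) (univ.image (fun j : Fin (m + 1) => g j.castSucc))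
      have h4 : ((insert (g (Fin.last (m + 1))) (univ.image (fun j : Fin (m + 1) => g j.castSucc))).card : ℝ) ≤
          (univ.image (fun j : Fin (m + 1) => g j.castSucc)).card + 1 := by exact_mod_cast h3
      refine h4.trans ?_
      rw [← add_assoc]
      exact add_le_add h1 le_rfl

theorem le_ncl_chain : ∀ (m : ℕ) (g : Fin (m + 1) → ℤ), Monotone g → 1 + ∑ j : Fin m, id1 (g j.castSucc ≠ g j.succ) ≤ (ncl g : ℝ) := by
  intro m
  induction m with
  | zero =>
    intro g _
    unfold ncl
    simp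
  | succ m ih =>
    intro g hg
    have h1 := ih (fun j => g j.castSucc) (fun a b hab => hg (Fin.castSucc_le_castSucc_iff.2 hab))
    rw [Fin.sum_univ_castSucc]
    have h2 : univ.image g = insert (g (Fin.last (m + 1))) (univ.image (fun j : Fin (m + 1) => g j.castSucc)) := by
      ext x
      simp only [mem_image, mem_univ, true_and, mem_insert]
      constructor
      · rintro ⟨a, rfl⟩
        rcases Fin.eq_castSucc_or_eq_last a with ⟨b, rfl⟩ | rfl
        · exact Or.inr ⟨b, rfl⟩
        · exact Or.inl rfl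
      · rintro (rfl | ⟨b, rfl⟩)
        · exact ⟨_, rfl⟩
        · exact ⟨_, rfl⟩
    unfold ncl at h1 ⊢
    rw [h2]
    have e1 : (Fin.last m).succ = Fin.last (m + 1) := rfl
    rw [e1]
    by_cases h : g (Fin.last m).castSucc = g (Fin.last (m + 1))
    · rw [id1_false (by simpa using h), insert_eq_of_mem (by rw [← h]; exact mem_image_of_mem (fun j : Fin (m + 1) => g j.castSucc) (mem_univ _))]
      refine le_trans (le_of_eq ?_) h1
      rw [add_zero]
      rfl
    · rw [id1_true (by simpa using h), card_insert_of_notMem]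
      · push_cast
        rw [← add_assoc]
        exact add_le_add h1 le_rfl
      · intro hm
        simp only [mem_image, mem_univ, true_and] at hm
        obtain ⟨b, hb⟩ := hm
        apply h
        apply le_antisymm (hg (Fin.le_last _))
        rw [← hb]
        exact hg (Fin.castSucc_le_castSucc_iff.2 (Fin.le_last b))

theorem ncl_comp_le {ι κ : Type} [Fintype ι] [Fintype κ] (c : κ → ι) (y : ι → ℤ) : ncl (fun j => y (c j)) ≤ ncl y := by
  unfold ncl
  apply card_le_card
  intro x hx
  simp only [mem_image, mem_univ, true_and] at hx ⊢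
  obtain ⟨j, hj⟩ := hx
  exact ⟨c j, hj⟩

theorem t_LO : S_LO := by
  intro K n J z c E r hc hr hE
  apply cheb n z c hc E r hr hE
  intro y hy hP
  have h1 := le_ncl_chain J (fun j => y (c j)) (fun a b hab => hy _ _ (hc.monotone hab))
  have h2 : (ncl (fun j => y (c j)) : ℝ) ≤ ncl y := by exact_mod_cast ncl_comp_le c y
  have h3 : nap c y = ∑ j : Fin J, id1 (y (c j.castSucc) ≠ y (c j.succ)) := rfl
  rw [← h3] at h1
  rw [le_abs]
  right
  linarith

/-- a chain through all positions -/
theorem exists_chain (z : Fin K → ℤ) (i0 : Fin K) : ∃ (J : ℕ) (c : Fin (J + 1) → Fin K), StrictMono (fun j => z (c j)) ∧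
    ∀ i, ∃ j, z i = z (c j) := by
  have hne : (univ.image z).Nonempty := ⟨z i0, mem_image_of_mem z (mem_univ _)⟩
  obtain ⟨J, hJ⟩ : ∃ J, (univ.image z).card = J + 1 := ⟨(univ.image z).card - 1, by have := card_pos.2 hne; omega⟩
  set o := (univ.image z).orderEmbOfFin hJ with ho
  have h1 : ∀ j, ∃ i, z i = o j := by
    intro j
    have := orderEmbOfFin_mem (univ.image z) hJ j
    rw [mem_image] at this
    obtain ⟨i, _, hi⟩ := this
    exact ⟨i, hi⟩
  choose c hc using h1
  refine ⟨J, c, ?_, ?_⟩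
  · intro a b hab
    show z (c a) < z (c b)
    rw [hc, hc]
    exact o.strictMono hab
  · intro i
    have h2 : z i ∈ Set.range o := by
      rw [ho, range_orderEmbOfFin]
      exact_mod_cast mem_image_of_mem z (mem_univ i)
    obtain ⟨j, hj⟩ := h2
    exact ⟨j, by rw [hc, hj]⟩

theorem U_two_one_le {n : ℕ} (hn : 1 ≤ n) : U (2 * n) 1 ≤ 1 / √ (π * n) := by
  obtain ⟨l, rfl⟩ : ∃ l, n = l + 1 := ⟨n - 1, by omega⟩
  have h1 : U (2 * (l + 1)) 1 ≤ U (2 * l + 1) 1 := U_antitone 1 (by omega)
  have h2 := U_one l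
  have h3 := u_sq_le (show 1 ≤ l + 1 by omega)
  have h4 := u_pos (l + 1)
  have h5 : u (l + 1) ≤ √ (1 / (π * (l + 1 : ℕ))) := Real.le_sqrt_of_sq_le h3
  rw [Real.sqrt_div zero_le_one, Real.sqrt_one] at h5
  linarith

theorem tele : ∀ (J : ℕ) (f : Fin (J + 1) → ℝ), ∑ j : Fin J, (f j.succ - f j.castSucc) = f (Fin.last J) - f 0 := by
  intro J
  induction J with
  | zero => intro f; simp
  | succ J ih =>
    intro f
    rw [Fin.sum_univ_castSucc]
    have h := ih (fun j => f j.castSucc)
    have e1 : ∀ j : Fin J, f j.castSucc.succ - f j.castSucc.castSucc = f j.succ.castSucc - f j.castSucc.castSucc := by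
      intro j; rw [Fin.succ_castSucc]
    rw [sum_congr rfl (fun j _ => e1 j), h]
    have e2 : (Fin.last J).succ = Fin.last (J + 1) := rfl
    have e3 : (Fin.castSucc (0 : Fin (J + 1))) = 0 := rfl
    rw [e2, e3]
    ring

theorem t_UP : S_UP := by
  intro K n z a b r hn hr hab hz
  have hba : (0 : ℝ) ≤ (b : ℝ) - a := by
    have : (a : ℝ) ≤ b := by exact_mod_cast hab
    linarith
  have hπ : 0 < √ (π * n) := by
    apply Real.sqrt_pos.2
    have : (0 : ℝ) < n := by exact_mod_cast hn
    positivity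
  set M : ℝ := 2 * ((b : ℝ) - a) / √ (π * n) with hM
  have hM0 : 0 ≤ M := by positivity
  rcases Nat.eq_zero_or_pos K with hK | hK
  · subst hK
    have h1 : cw (fun y : Fin 0 → ℤ => id1 (1 + M + r ≤ (ncl y : ℝ))) n z ≤ cw (fun _ => (0 : ℝ)) n z := by
      apply cw_mono_ord
      intro y _
      rw [id1_false]
      unfold ncl
      simp
      positivity
    rw [cw_const] at h1
    exact h1.trans (by positivity)
  obtain ⟨J, c, hc, hall⟩ := exists_chain z ⟨0, hK⟩
  set E : ℝ := ∑ j : Fin J, U (2 * n) (2 * (z (c j.succ) - z (c j.castSucc))) with hE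
  have hEM : E ≤ M := by
    have h1 : ∀ j : Fin J, U (2 * n) (2 * (z (c j.succ) - z (c j.castSucc))) ≤
        2 * (((z (c j.succ) : ℤ) : ℝ) - (z (c j.castSucc) : ℤ)) * U (2 * n) 1 := by
      intro j
      have hm : z (c j.castSucc) < z (c j.succ) := hc (Fin.castSucc_lt_succ)
      obtain ⟨d, hd⟩ := Int.eq_ofNat_of_zero_le (show 0 ≤ z (c j.succ) - z (c j.castSucc) by omega)
      have h2 := U_le_mul (2 * n) (2 * d)
      have h3 : (((z (c j.succ) : ℤ) : ℝ) - (z (c j.castSucc) : ℤ)) = d := by
        have : ((z (c j.succ) - z (c j.castSucc) : ℤ) : ℝ) = ((d : ℤ) : ℝ) := by rw [hd]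
        push_cast at this
        exact this
      rw [hd, h3]
      push_cast at h2
      exact h2
    have h2 : ∑ j : Fin J, (((z (c j.succ) : ℤ) : ℝ) - (z (c j.castSucc) : ℤ)) = (z (c (Fin.last J)) : ℝ) - z (c 0) :=
      tele J (fun j => ((z (c j) : ℤ) : ℝ))
    have h3 : (z (c (Fin.last J)) : ℝ) - z (c 0) ≤ (b : ℝ) - a := by
      have h4 : ((z (c (Fin.last J)) : ℤ) : ℝ) ≤ b := by exact_mod_cast (hz _).2
      have h5 : (a : ℝ) ≤ ((z (c 0) : ℤ) : ℝ) := by exact_mod_cast (hz _).1
      linarith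
    have h4 := U_two_one_le hn
    have h5 := U_nonneg (2 * n) 1
    calc E ≤ ∑ j : Fin J, 2 * (((z (c j.succ) : ℤ) : ℝ) - (z (c j.castSucc) : ℤ)) * U (2 * n) 1 := sum_le_sum fun j _ => h1 j
      _ = 2 * ((z (c (Fin.last J)) : ℝ) - z (c 0)) * U (2 * n) 1 := by
          rw [← h2, mul_sum, sum_mul]
      _ ≤ 2 * ((b : ℝ) - a) * U (2 * n) 1 := by
          apply mul_le_mul_of_nonneg_right _ h5
          linarith
      _ ≤ 2 * ((b : ℝ) - a) * (1 / √ (π * n)) := mul_le_mul_of_nonneg_left h4 (by linarith)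
      _ = M := by rw [hM]; ring
  have h1 := cheb n z c hc E r hr hE (fun y => 1 + M + r ≤ (ncl y : ℝ)) (by
    intro y hy hP
    have h2 := ncl_chain_le J (fun j => y (c j))
    have h3 : ncl y ≤ ncl (fun j => y (c j)) := by
      unfold ncl
      apply card_le_card
      intro x hx
      simp only [mem_image, mem_univ, true_and] at hx ⊢
      obtain ⟨i, hi⟩ := hx
      obtain ⟨j, hj⟩ := hall i
      exact ⟨j, by rw [← hi]; exact (hy.eq hj).symm⟩
    have h4 : (ncl y : ℝ) ≤ ncl (fun j => y (c j)) := by exact_mod_cast h3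
    have h5 : nap c y = ∑ j : Fin J, id1 (y (c j.castSucc) ≠ y (c j.succ)) := rfl
    rw [← h5] at h2
    have hP' : 1 + M + r ≤ (ncl y : ℝ) := hP
    rw [le_abs]
    left
    linarith)
  exact h1.trans (div_le_div_of_nonneg_right hEM (by positivity))

end Pool.Agent.J4H49.SC
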